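import Pool.Agent.Helper22.G4.Mem

/-!
# G4-M5: the algebraic condition implies that the graph is conic (MP_ac8dca_lc, captain helper22)
-/

namespace Pool.Agent.Helper88.G4

open Pool.Agent.Helper22.G4 Submodule

/-- the homogenised points -/
def cM (p : ℕ → ℕ → ℝ) (v : ℕ) : E5 := Fin.cons 1 fun i : Fin 4 => p v i

/-- the functional `b x 0 - sum f i x (i + 1)` -/
noncomputable def phiM (b : ℝ) (f : ℕ → ℝ) : E5 →ₗ[ℝ] ℝ :=
  b • LinearMap.proj 0 - ∑ i : Fin 4, f i • LinearMap.proj (R := ℝ) (φ := fun _ : Fin 5 => ℝ) i.succ

theorem phiM_apply (b : ℝ) (f : ℕ → ℝ) (p : ℕ → ℕ → ℝ) (w : ℕ) :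
    phiM b f (cM p w) = b - ∑ i ∈ Finset.range 4, f i * p w i := by
  rw [Finset.sum_range]
  simp [phiM, cM]

theorem conic_of_algCond (n : ℕ) (adj : ℕ → ℕ → Prop) (hs : ∀ u v, adj u v → adj v u)
    (h : AlgCond n adj) : ConicGraph (Finset.range n) adj := by
  obtain ⟨p, hv, he, hn, hd⟩ := h
  -- edges
  have hedge : ∀ u v, u < v → v < n → (FaceOn (cM p) (Finset.range n) {u, v} ↔ adj u v) := by
    intro u v huv hvn
    constructor
    · rintro ⟨-, φ, hφ, hφ0⟩
      by_contra hadj
      obtain ⟨l, hl0, hl1, hl2, hl3⟩ := hn u v huv hvn hadj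
      have key : l u • cM p u + l v • cM p v =
          ∑ w ∈ (Finset.range n).filter (fun w => w ≠ u ∧ w ≠ v), l w • cM p w := by
        ext i
        refine Fin.cases ?_ (fun i => ?_) i
        · simp only [Pi.add_apply, Pi.smul_apply, Finset.sum_apply, cM, Fin.cons_zero, smul_eq_mul,
            mul_one]
          rw [hl1, hl2]
        · simp only [Pi.add_apply, Pi.smul_apply, Finset.sum_apply, cM, Fin.cons_succ, smul_eq_mul]
          exact hl3 i i.2
      have h1 : φ (cM p u) = 0 := (hφ0 u (Finset.mem_range.2 (huv.trans hvn))).2 (by simp)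
      have h2 : φ (cM p v) = 0 := (hφ0 v (Finset.mem_range.2 hvn)).2 (by simp)
      have h3 : ∑ w ∈ (Finset.range n).filter (fun w => w ≠ u ∧ w ≠ v), l w * φ (cM p w) = 0 := by
        have := congrArg φ key
        rw [map_add, map_smul, map_smul, h1, h2, smul_zero, smul_zero, add_zero, map_sum] at this
        rw [this]
        exact Finset.sum_congr rfl fun w _ => by rw [map_smul, smul_eq_mul]
      have h4 : ∀ w ∈ (Finset.range n).filter (fun w => w ≠ u ∧ w ≠ v), 0 ≤ l w * φ (cM p w) := by
        intro w hw
        rw [Finset.mem_filter] at hw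
        exact mul_nonneg (hl0 w (Finset.mem_range.1 hw.1)) (hφ w hw.1)
      have h5 := (Finset.sum_eq_zero_iff_of_nonneg h4).1 h3
      have h6 : ∑ w ∈ (Finset.range n).filter (fun w => w ≠ u ∧ w ≠ v), l w = 0 := by
        refine Finset.sum_eq_zero fun w hw => ?_
        have h7 := h5 w hw
        rw [Finset.mem_filter] at hw
        rcases mul_eq_zero.1 h7 with h8 | h8
        · exact h8
        · have := (hφ0 w hw.1).1 h8
          simp only [Set.mem_insert_iff, Set.mem_singleton_iff] at this
          rcases this with h9 | h9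
          · exact absurd h9 hw.2.1
          · exact absurd h9 hw.2.2
      rw [h6] at hl2
      exact zero_ne_one hl2
    · intro hadj
      obtain ⟨f, hf1, hf2⟩ := he u v huv hvn hadj
      refine ⟨?_, phiM (∑ i ∈ Finset.range 4, f i * p u i) f, ?_, ?_⟩
      · intro w hw
        simp only [Set.mem_insert_iff, Set.mem_singleton_iff] at hw
        simp only [Finset.coe_range, Set.mem_Iio]
        rcases hw with rfl | rfl
        · exact huv.trans hvn
        · exact hvn
      · intro w hw
        rw [phiM_apply]
        by_cases h1 : w = u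
        · rw [h1, sub_self]
        · by_cases h2 : w = v
          · rw [h2, hf1, sub_self]
          · have := hf2 w (Finset.mem_range.1 hw) h1 h2
            linarith
      · intro w hw
        rw [phiM_apply]
        simp only [Set.mem_insert_iff, Set.mem_singleton_iff]
        constructor
        · intro h0
          by_contra h1
          push Not at h1
          have := hf2 w (Finset.mem_range.1 hw) h1.1 h1.2
          linarith
        · rintro (rfl | rfl)
          · rw [sub_self]
          · rw [hf1, sub_self]
  refine ⟨cM p, ⟨⟨LinearMap.proj 0, fun w _ => ?_⟩, fun v hvA => ?_⟩, ?_, ?_⟩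
  · simp [cM]
  · obtain ⟨f, hf⟩ := hv v (Finset.mem_range.1 hvA)
    refine ⟨?_, phiM (∑ i ∈ Finset.range 4, f i * p v i) f, ?_, ?_⟩
    · intro w hw
      rw [Set.mem_singleton_iff] at hw
      rw [hw]
      exact hvA
    · intro w hw
      rw [phiM_apply]
      by_cases h1 : w = v
      · rw [h1, sub_self]
      · have := hf w (Finset.mem_range.1 hw) h1
        linarith
    · intro w hw
      rw [phiM_apply, Set.mem_singleton_iff]
      constructor
      · intro h0
        by_contra h1
        have := hf w (Finset.mem_range.1 hw) h1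
        linarith
      · rintro rfl
        rw [sub_self]
  · -- span
    have hunit : ∀ i : Fin 4, (Pi.single i.succ 1 : E5) ∈
        span ℝ (cM p '' ((Finset.range n : Finset ℕ) : Set ℕ)) := by
      intro i
      obtain ⟨l, hl0, hl1⟩ := hd i i.2
      have h1 : (Pi.single i.succ 1 : E5) = ∑ v ∈ Finset.range n, l v • cM p v := by
        ext k
        refine Fin.cases ?_ (fun k => ?_) k
        · simp only [Finset.sum_apply, Pi.smul_apply, cM, Fin.cons_zero, smul_eq_mul, mul_one]
          rw [hl0, Pi.single_eq_of_ne (Fin.succ_ne_zero i).symm]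
        · simp only [Finset.sum_apply, Pi.smul_apply, cM, Fin.cons_succ, smul_eq_mul]
          rw [hl1 k k.2]
          by_cases hk : k = i
          · rw [hk, Pi.single_eq_same, if_pos rfl]
          · rw [Pi.single_eq_of_ne (fun h => hk (Fin.succ_injective _ h)),
              if_neg fun h => hk (Fin.ext h)]
      rw [h1]
      exact sum_mem fun v hv => smul_mem _ _ (subset_span ⟨v, hv, rfl⟩)
    have hn0 : 0 < n := by
      by_contra h0
      have h1 : n = 0 := by omega
      obtain ⟨l, -, hl1⟩ := hd 0 (by norm_num)
      have := hl1 0 (by norm_num)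
      rw [h1] at this
      simp at this
    have hzero : (Pi.single 0 1 : E5) ∈ span ℝ (cM p '' ((Finset.range n : Finset ℕ) : Set ℕ)) := by
      have h1 : (Pi.single 0 1 : E5) = cM p 0 - ∑ i : Fin 4, p 0 i • (Pi.single i.succ 1 : E5) := by
        ext k
        refine Fin.cases ?_ (fun k => ?_) k
        · simp [cM, Fin.succ_ne_zero]
        · simp only [Pi.sub_apply, Finset.sum_apply, Pi.smul_apply, cM, Fin.cons_succ, smul_eq_mul]
          rw [Pi.single_eq_of_ne (Fin.succ_ne_zero k), Finset.sum_eq_single k]
          · simp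
          · intro b _ hb
            rw [Pi.single_eq_of_ne (fun h => hb (Fin.succ_injective _ h).symm), mul_zero]
          · simp
      rw [h1]
      refine sub_mem (subset_span ⟨0, by simpa using hn0, rfl⟩) (sum_mem fun i _ => ?_)
      exact smul_mem _ _ (hunit i)
    rw [eq_top_iff]
    intro x _
    have h1 : x = ∑ k : Fin 5, x k • (Pi.single k 1 : E5) := by
      ext j
      simp [Finset.sum_apply, Pi.single_apply]
    rw [h1]
    refine sum_mem fun k _ => smul_mem _ _ ?_
    refine Fin.cases hzero (fun i => hunit i) k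
  · intro u hu v hvA huv
    rw [Finset.mem_range] at hu hvA
    rcases lt_or_gt_of_ne huv with h1 | h1
    · exact hedge u v h1 hvA
    · rw [Set.pair_comm]
      exact (hedge v u h1 hu).trans ⟨hs v u, hs u v⟩

end Pool.Agent.Helper88.G4
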